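import Mathlib
import Pool.Agent.H97R3.Nontriv

set_option autoImplicit false

namespace Pool.Agent.Results.MP_215185_al.NotResiduallyPL

open Pool.Agent.H97R3.Diag Pool.Agent.H97R3.PLm

/-- There are a finite semigroup presentation `P`, a nonempty word `w` and a nontrivial element `x`
of the diagram group `D(P, w)` (the fundamental group of the Squier complex of `P` based at `w`)
which is sent to `1` by every homomorphism from `D(P, w)` to `PL₊([0,1])`. So `D(P, w)` is not
residually `PL₊([0,1])`; since Thompson's group `F` is a subgroup of `PL₊([0,1])`, it is not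
residually `F` either. -/
theorem result :
    ∃ (S : Type) (P : Pres S) (w : List S), Finite S ∧ P.rels.Finite ∧ w ≠ [] ∧
      ∃ x : DiagramGroup P w, x ≠ 1 ∧ ∀ φ : DiagramGroup P w →* PLplus, φ x = 1 := by
  refine ⟨Pool.Agent.H97R3.Example.L, Pool.Agent.H97R3.Example.PP,
    Pool.Agent.H97R3.Example.w0, inferInstance, ?_, by decide, _,
    Pool.Agent.H97R3.Example.word_ne, ?_⟩
  · exact List.finite_toSet _
  · exact fun φ => Pool.Agent.H97R3.Config.killed Pool.Agent.H97R3.Example.isConfig φ

end Pool.Agent.Results.MP_215185_al.NotResiduallyPL
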